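import Mathlib

set_option autoImplicit false

namespace Pool.Agent.Results.MP_bdd522_nt.PartBFails

open Finset

/-- The generalized central trinomial coefficient
`T_n(b,c) = ∑_{0 ≤ j ≤ n/2} C(n,2j) C(2j,j) c^j b^(n-2j)`, the coefficient of `t^n` in
`(t^2 + b t + c)^n`. -/
def T (b c : ℤ) (n : ℕ) : ℤ :=
  ∑ j ∈ range (n / 2 + 1), (n.choose (2 * j) : ℤ) * ((2 * j).choose j : ℤ) * c ^ j * b ^ (n - 2 * j)

/-- Two rationals are congruent modulo `p^m` when their difference is `p^m` times a rational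
number with denominator prime to `p`. -/
def Cong (p m : ℕ) (x y : ℚ) : Prop := ¬ p ∣ ((x - y) / (p : ℚ) ^ m).den

/-- The second congruence of part (b) for the prime `p`. -/
def PartB2 (p : ℕ) : Prop :=
  Cong p 3 (∑ k ∈ range p, (3 * (k : ℚ) + 1) * (T 2 3 k : ℚ) ^ 3 / (-64) ^ k)
    ((p : ℚ) * (jacobiSym (-2) p : ℚ))

theorem T0 : T 2 3 0 = 1 := by decide
theorem T1 : T 2 3 1 = 2 := by decide
theorem T2 : T 2 3 2 = 10 := by decide
theorem T3 : T 2 3 3 = 44 := by decide
theorem T4 : T 2 3 4 = 214 := by decide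
theorem T5 : T 2 3 5 = 1052 := by decide
theorem T6 : T 2 3 6 = 5284 := by decide

theorem fail5 : ¬ PartB2 5 := by
  have hs : jacobiSym (-2) 5 = -1 := by norm_num
  unfold PartB2 Cong
  rw [hs]
  simp only [sum_range_succ, sum_range_zero, T0, T1, T2, T3, T4]
  norm_num

theorem fail7 : ¬ PartB2 7 := by
  have hs : jacobiSym (-2) 7 = -1 := by norm_num
  unfold PartB2 Cong
  rw [hs]
  simp only [sum_range_succ, sum_range_zero, T0, T1, T2, T3, T4, T5, T6]
  norm_num

/-- The second congruence of (b), modulo `p^3`, fails for `p = 5` and for `p = 7`; in particular it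
is not true for all primes `p > 3`. -/
theorem result : ¬ (∀ p : ℕ, p.Prime → 3 < p → PartB2 p) ∧ ¬ PartB2 5 ∧ ¬ PartB2 7 :=
  ⟨fun h => fail7 (h 7 (by norm_num) (by norm_num)), fail5, fail7⟩

end Pool.Agent.Results.MP_bdd522_nt.PartBFails
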